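import Pool.Agent.Helper45.LinK.GoalsK

/-! Packet DETB: determinant and norm. -/

namespace Pool.Agent.Helper77.LinK

open Pool.Agent.Helper45.LinK Pool.Agent.Helper95.Lin

lemma det_bound (k : ℕ) (L : CE k) : ‖L.det‖ ≤ (k.factorial : ℝ) * ‖L‖ ^ k := by
  have h1 : L.det = (LinearMap.toMatrix' (L : Cn k →ₗ[ℂ] Cn k)).det := by
    rw [LinearMap.det_toMatrix']
  rw [h1]
  have hx : ∀ i j, (IsAbsoluteValue.toAbsoluteValue (norm : ℂ → ℝ))
      ((LinearMap.toMatrix' (L : Cn k →ₗ[ℂ] Cn k)) i j) ≤ ‖L‖ := by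
    intro i j
    show ‖(LinearMap.toMatrix' (L : Cn k →ₗ[ℂ] Cn k)) i j‖ ≤ ‖L‖
    rw [LinearMap.toMatrix'_apply]
    have h2 : ‖L (Pi.single j 1) i‖ ≤ ‖L (Pi.single j 1)‖ := norm_le_pi_norm _ i
    have h3 : ‖L (Pi.single j 1)‖ ≤ ‖L‖ * ‖(Pi.single j 1 : Cn k)‖ := L.le_opNorm _
    have h4 : ‖(Pi.single j 1 : Cn k)‖ = 1 := by
      rw [Pi.norm_single, norm_one]
    rw [h4, mul_one] at h3
    exact h2.trans h3
  have h5 := Matrix.det_le hx
  rw [Fintype.card_fin, nsmul_eq_mul] at h5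
  exact h5

theorem DETB : S_DETB := by
  intro k
  have hc1 : (1 : ℝ) ≤ (k.factorial : ℝ) := by exact_mod_cast Nat.succ_le_of_lt k.factorial_pos
  refine ⟨k.factorial, hc1, det_bound k, ?_⟩
  intro L C hC hQ
  rcases Nat.eq_zero_or_pos k with hk | hk
  · subst hk
    have h1 : L.det = 1 := by
      have : (L : Cn 0 →ₗ[ℂ] Cn 0) = 1 := by
        ext x
        exact Fin.elim0 ‹_›
      show LinearMap.det (L : Cn 0 →ₗ[ℂ] Cn 0) = 1
      rw [this, map_one]
    rw [h1]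
    simp
  by_cases hL : L = 0
  · subst hL
    rw [norm_zero, zero_pow hk.ne']
    positivity
  have hLpos : 0 < ‖L‖ := norm_pos_iff.mpr hL
  -- L is bounded below
  have hlow : ∀ x : Cn k, ‖L‖ * ‖x‖ ≤ C * ‖L x‖ := by
    intro x
    by_cases hx : x = 0
    · subst hx; simp
    have hxpos : 0 < ‖x‖ := norm_pos_iff.mpr hx
    have h1 : ‖L‖ ≤ C * ‖L x‖ / ‖x‖ := by
      refine ContinuousLinearMap.opNorm_le_bound _ (by positivity) (fun u => ?_)
      have h2 : ‖u‖ = ‖((‖u‖ / ‖x‖ : ℝ) : ℂ) • x‖ := by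
        rw [norm_smul, Complex.norm_real, Real.norm_eq_abs, abs_of_nonneg (by positivity),
          div_mul_cancel₀ _ hxpos.ne']
      have h3 := hQ u _ h2
      rw [map_smul, norm_smul, Complex.norm_real, Real.norm_eq_abs,
        abs_of_nonneg (by positivity)] at h3
      refine h3.trans (le_of_eq ?_)
      field_simp
    rw [le_div_iff₀ hxpos] at h1
    exact h1
  have hinj : Function.Injective (L : Cn k →ₗ[ℂ] Cn k) := by
    rw [← LinearMap.ker_eq_bot, LinearMap.ker_eq_bot']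
    intro x hx
    have h1 := hlow x
    have h2 : L x = 0 := hx
    rw [h2, norm_zero, mul_zero] at h1
    by_contra hne
    have : 0 < ‖x‖ := norm_pos_iff.mpr hne
    have := mul_pos hLpos this
    linarith
  let Le : Cn k ≃ₗ[ℂ] Cn k := LinearEquiv.ofInjectiveEndo (L : Cn k →ₗ[ℂ] Cn k) hinj
  let M : CE k := LinearMap.toContinuousLinearMap (Le.symm : Cn k →ₗ[ℂ] Cn k)
  have hLM : ∀ y, L (M y) = y := by
    intro y
    have h1 : Le (Le.symm y) = y := Le.apply_symm_apply y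
    exact h1
  have hM : ‖M‖ ≤ C / ‖L‖ := by
    refine ContinuousLinearMap.opNorm_le_bound _ (by positivity) (fun y => ?_)
    have h1 := hlow (M y)
    rw [hLM y] at h1
    rw [div_mul_eq_mul_div, le_div_iff₀ hLpos, mul_comm]
    exact h1
  have hdet : M.det * L.det = 1 := by
    show LinearMap.det (M : Cn k →ₗ[ℂ] Cn k) * LinearMap.det (L : Cn k →ₗ[ℂ] Cn k) = 1
    rw [mul_comm, ← LinearMap.det_comp]
    have : (L : Cn k →ₗ[ℂ] Cn k) ∘ₗ (M : Cn k →ₗ[ℂ] Cn k) = LinearMap.id := by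
      refine LinearMap.ext (fun y => ?_)
      exact hLM y
    rw [this, LinearMap.det_id]
  have h1 := det_bound k M
  have h2 : ‖M.det‖ ≤ (k.factorial : ℝ) * (C / ‖L‖) ^ k :=
    h1.trans (mul_le_mul_of_nonneg_left (pow_le_pow_left₀ (norm_nonneg _) hM k) (by positivity))
  have h3 : (1 : ℝ) = ‖M.det‖ * ‖L.det‖ := by
    rw [← norm_mul, hdet, norm_one]
  have h4 : (1 : ℝ) ≤ (k.factorial : ℝ) * (C / ‖L‖) ^ k * ‖L.det‖ := by
    rw [h3]
    exact mul_le_mul_of_nonneg_right h2 (norm_nonneg _)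
  have h5 : ‖L‖ ^ k * 1 ≤ ‖L‖ ^ k * ((k.factorial : ℝ) * (C / ‖L‖) ^ k * ‖L.det‖) :=
    mul_le_mul_of_nonneg_left h4 (by positivity)
  rw [mul_one, div_pow] at h5
  refine h5.trans (le_of_eq ?_)
  field_simp

end Pool.Agent.Helper77.LinK
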